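import Pool.Agent.K.MP_ee6314_co.C3
import Pool.Agent.K.MP_ee6314_co.C2
import Pool.Agent.K.MP_ee6314_co.C1

/-! The postorder descent polynomials of decreasing full binary trees have only real roots. -/

namespace Pool.Agent.Results.MP_ee6314_co.RealRoots

open Pool.Agent.P.MP_ee6314_co

theorem result : ∀ n : ℕ, Even n → 2 ≤ n →
    ∀ z : ℂ, Polynomial.aeval z (Q n) = 0 → z.im = 0 := by
  rintro n ⟨m, rfl⟩ hn z hz
  obtain ⟨k, rfl⟩ : ∃ k, m = k + 1 := ⟨m - 1, by omega⟩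
  rw [show k + 1 + (k + 1) = 2 * k + 2 by ring] at hz
  rcases le_or_gt k 62 with hk | hk
  · obtain ⟨a, ha⟩ := fin_check k hk
    exact real_of_HR ha hz
  · obtain ⟨R, h1, h2, h3, h4⟩ := cells (yA 12) √156 yA_twelve
      ⟨Real.le_sqrt_of_sq_le (by norm_num), by rw [Real.sqrt_le_left (by norm_num)]; norm_num⟩
    obtain ⟨a, ha⟩ := big hk h1 (by rw [h2, Real.sq_sqrt (by norm_num)]) h3 h4
    exact real_of_HR ha hz

end Pool.Agent.Results.MP_ee6314_co.RealRoots
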